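import Mathlib

/-!
# The left strong rank condition does not descend along `R[x; σ]` with `σ` surjective

`R` is the free `ℚ`-algebra on `aᵢ, bᵢ` (`i ∈ ℕ`) and `σ` shifts the indices down, killing `a₀, b₀`.
Then `R² → R`, `(r, s) ↦ r a₀ + s b₀` is injective, so `R` fails the left strong rank condition,
but `xᴺ m = π(m) xᴺ` for every `m ∈ R[x; σ]` and all large `N`, with `π(m) ∈ ℚ[x]`; this gives the
left strong rank condition for `R[x; σ]`.
-/

set_option autoImplicit false

namespace Pool.Agent.Results.MP_5f6a82_al.SurjectiveFails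

open Multiplicative

/-! ### Definitions -/

/-- The left strong rank condition: for no positive `n` is there an injective homomorphism of left
modules `Aⁿ⁺¹ → Aⁿ`. -/
def LSRC (A : Type) [Ring A] : Prop :=
  ∀ n : ℕ, 0 < n → ∀ f : (Fin (n + 1) → A) →ₗ[A] (Fin n → A), ¬ Function.Injective f

/-- `δ` is a `σ`-derivation. -/
def IsSkewDerivation {R : Type} [Ring R] (σ : R →+* R) (δ : R →+ R) : Prop :=
  ∀ r s : R, δ (r * s) = δ r * s + σ r * δ s

/-- `A`, with `ι : R → A` and `x ∈ A`, is the Ore extension `R[x; σ, δ]`: `x r = σ(r) x + δ(r)` and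
every element of `A` is uniquely of the form `∑ rᵢ xⁱ`. -/
structure IsOreExtension {R A : Type} [Ring R] [Ring A] (σ : R →+* R) (δ : R →+ R)
    (ι : R →+* A) (x : A) : Prop where
  /-- the commutation rule -/
  comm : ∀ r : R, x * ι r = ι (σ r) * x + ι (δ r)
  /-- unique representation -/
  repr : ∀ a : A, ∃! f : ℕ →₀ R, f.sum (fun i r => ι r * x ^ i) = a

/-! ### The ring `R` and its endomorphism -/

/-- The free algebra on `aᵢ = (i, false)`, `bᵢ = (i, true)`. -/
abbrev RR : Type := FreeAlgebra ℚ (ℕ × Bool)

/-- The shift. -/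
noncomputable def shift : RR →ₐ[ℚ] RR :=
  FreeAlgebra.lift ℚ fun p => if p.1 = 0 then 0 else FreeAlgebra.ι ℚ (p.1 - 1, p.2)

/-- The reverse shift. -/
noncomputable def unshift : RR →ₐ[ℚ] RR :=
  FreeAlgebra.lift ℚ fun p => FreeAlgebra.ι ℚ (p.1 + 1, p.2)

theorem shift_unshift (r : RR) : shift (unshift r) = r := by
  have : shift.comp unshift = AlgHom.id ℚ RR := by
    ext p
    simp [shift, unshift]
  exact congrArg (fun f : RR →ₐ[ℚ] RR => f r) this

theorem shift_surjective : Function.Surjective shift := fun r => ⟨unshift r, shift_unshift r⟩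

/-- The action of `Multiplicative ℕ` defined by the shift. -/
noncomputable instance : MulSemiringAction (Multiplicative ℕ) RR :=
  MulSemiringAction.compHom RR (powersHom (RR →+* RR) shift.toRingHom)

theorem smul_eq (n : ℕ) (r : RR) : (ofAdd n) • r = shift^[n] r := by
  change ((powersHom (RR →+* RR) shift.toRingHom) (ofAdd n)) r = shift^[n] r
  rw [powersHom_apply, toAdd_ofAdd]
  induction n with
  | zero => rfl
  | succ n ih =>
    rw [pow_succ', Function.iterate_succ_apply', ← ih]
    rfl

theorem phi_eq (r : RR) : SkewPolynomial.φ r = shift r := by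
  have := smul_eq 1 r
  rw [Function.iterate_one] at this
  rw [← this]
  rfl

theorem shift_algebraMap (q : ℚ) : shift (algebraMap ℚ RR q) = algebraMap ℚ RR q := shift.commutes q

theorem iterate_algebraMap (n : ℕ) (q : ℚ) : shift^[n] (algebraMap ℚ RR q) = algebraMap ℚ RR q := by
  induction n with
  | zero => rfl
  | succ n ih => rw [Function.iterate_succ_apply', ih, shift_algebraMap]

theorem iterate_ι (i : ℕ) : ∀ (n : ℕ) (b : Bool), i < n → shift^[n] (FreeAlgebra.ι ℚ (i, b)) = 0 := by
  induction i with
  | zero =>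
    intro n b h
    obtain ⟨m, rfl⟩ : ∃ m, n = m + 1 := ⟨n - 1, by omega⟩
    rw [Function.iterate_succ_apply]
    have h0 : shift (FreeAlgebra.ι ℚ ((0 : ℕ), b)) = 0 := by simp [shift]
    rw [h0]
    have : shift^[m] (algebraMap ℚ RR 0) = algebraMap ℚ RR 0 := iterate_algebraMap m 0
    simpa only [map_zero] using this
  | succ i ih =>
    intro n b h
    obtain ⟨m, rfl⟩ : ∃ m, n = m + 1 := ⟨n - 1, by omega⟩
    rw [Function.iterate_succ_apply]
    have h0 : shift (FreeAlgebra.ι ℚ (i + 1, b)) = FreeAlgebra.ι ℚ (i, b) := by simp [shift]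
    rw [h0]
    exact ih m b (by omega)

theorem iterate_mul (n : ℕ) (a b : RR) : shift^[n] (a * b) = shift^[n] a * shift^[n] b := by
  induction n with
  | zero => rfl
  | succ n ih => simp only [Function.iterate_succ_apply', ih, map_mul]

theorem iterate_add (n : ℕ) (a b : RR) : shift^[n] (a + b) = shift^[n] a + shift^[n] b := by
  induction n with
  | zero => rfl
  | succ n ih => simp only [Function.iterate_succ_apply', ih, map_add]

/-- Every element of `R` is eventually shifted to a constant. -/
theorem eventually_const (r : RR) : ∃ (q : ℚ) (N : ℕ), ∀ n, N ≤ n → shift^[n] r = algebraMap ℚ RR q := by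
  induction r using FreeAlgebra.induction with
  | grade0 q => exact ⟨q, 0, fun n _ => iterate_algebraMap n q⟩
  | grade1 p =>
    obtain ⟨i, b⟩ := p
    exact ⟨0, i + 1, fun n hn => by rw [iterate_ι i n b (by omega), map_zero]⟩
  | mul a b ha hb =>
    obtain ⟨q, N, h⟩ := ha
    obtain ⟨q', N', h'⟩ := hb
    refine ⟨q * q', max N N', fun n hn => ?_⟩
    rw [iterate_mul, h n (le_trans (le_max_left _ _) hn), h' n (le_trans (le_max_right _ _) hn),
      map_mul]
  | add a b ha hb =>
    obtain ⟨q, N, h⟩ := ha
    obtain ⟨q', N', h'⟩ := hb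
    refine ⟨q + q', max N N', fun n hn => ?_⟩
    rw [iterate_add, h n (le_trans (le_max_left _ _) hn), h' n (le_trans (le_max_right _ _) hn),
      map_add]

/-! ### `R` fails the left strong rank condition -/

theorem free_pair (r s : RR)
    (h : r * FreeAlgebra.ι ℚ ((0 : ℕ), false) + s * FreeAlgebra.ι ℚ ((0 : ℕ), true) = 0) :
    r = 0 ∧ s = 0 := by
  classical
  set e : RR ≃ₐ[ℚ] MonoidAlgebra ℚ (FreeMonoid (ℕ × Bool)) :=
    FreeAlgebra.equivMonoidAlgebraFreeMonoid with he
  have hι : ∀ p : ℕ × Bool, e (FreeAlgebra.ι ℚ p) = MonoidAlgebra.single (FreeMonoid.of p) 1 := by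
    intro p
    rw [he]
    simp [FreeAlgebra.equivMonoidAlgebraFreeMonoid]
  have h1 : e r * MonoidAlgebra.single (FreeMonoid.of ((0 : ℕ), false)) (1 : ℚ)
      + e s * MonoidAlgebra.single (FreeMonoid.of ((0 : ℕ), true)) (1 : ℚ) = 0 := by
    have := congrArg e h
    rwa [map_add, map_mul, map_mul, hι, hι, map_zero] at this
  have hne : ∀ (b c : Bool) (w d : FreeMonoid (ℕ × Bool)), b ≠ c →
      d * FreeMonoid.of ((0 : ℕ), b) ≠ w * FreeMonoid.of ((0 : ℕ), c) := by
    intro b c w d hbc hh
    have h3 : FreeMonoid.toList d ++ [((0 : ℕ), b)] = FreeMonoid.toList w ++ [((0 : ℕ), c)] := by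
      have := congrArg FreeMonoid.toList hh
      simpa using this
    have h4 := (List.append_inj' h3 rfl).2
    apply hbc
    simpa using h4
  have hcan : ∀ (b : Bool) (w d : FreeMonoid (ℕ × Bool)),
      d * FreeMonoid.of ((0 : ℕ), b) = w * FreeMonoid.of ((0 : ℕ), b) ↔ d = w := by
    intro b w d
    exact mul_left_inj _
  constructor
  · apply e.injective
    rw [map_zero]
    ext w
    have h2 := congrArg (fun z => MonoidAlgebra.coeff z (w * FreeMonoid.of ((0 : ℕ), false))) h1
    simp only [MonoidAlgebra.coeff_add, Finsupp.add_apply] at h2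
    rw [MonoidAlgebra.coeff_mul_single_eq_coeff_mul w (fun d _ => hcan false w d),
      MonoidAlgebra.coeff_mul_single_of_forall_mul_ne _ _ (fun d => hne true false w d (by decide))]
      at h2
    simpa using h2
  · apply e.injective
    rw [map_zero]
    ext w
    have h2 := congrArg (fun z => MonoidAlgebra.coeff z (w * FreeMonoid.of ((0 : ℕ), true))) h1
    simp only [MonoidAlgebra.coeff_add, Finsupp.add_apply] at h2
    rw [MonoidAlgebra.coeff_mul_single_eq_coeff_mul w (fun d _ => hcan true w d),
      MonoidAlgebra.coeff_mul_single_of_forall_mul_ne _ _ (fun d => hne false true w d (by decide))]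
      at h2
    simpa using h2

theorem not_LSRC_RR : ¬ LSRC RR := by
  intro h
  refine h 1 one_pos
    { toFun := fun v _ => v 0 * FreeAlgebra.ι ℚ ((0 : ℕ), false) + v 1 * FreeAlgebra.ι ℚ ((0 : ℕ), true)
      map_add' := ?_
      map_smul' := ?_ } ?_
  · intro v w
    funext i
    simp [add_mul]
    abel
  · intro c v
    funext i
    simp [mul_add, mul_assoc]
  · refine (injective_iff_map_eq_zero _).2 fun v hv => ?_
    have h0 := congrFun hv 0
    obtain ⟨h1, h2⟩ := free_pair (v 0) (v 1) h0
    funext i
    fin_cases i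
    · exact h1
    · exact h2

/-! ### The Ore extension -/

/-- The Ore extension `R[x; σ]`. -/
abbrev AA : Type := SkewPolynomial RR

theorem coeff_add' (u v : AA) (n : ℕ) :
    SkewPolynomial.coeff (u + v) n = SkewPolynomial.coeff u n + SkewPolynomial.coeff v n := by
  unfold SkewPolynomial.coeff
  rw [SkewMonoidAlgebra.coeff_add, Finsupp.add_apply]

theorem isOre : IsOreExtension (A := AA) shift.toRingHom (0 : RR →+ RR)
    (SkewPolynomial.CRingHom : RR →+* AA) SkewPolynomial.X := by
  constructor
  · intro r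
    have h1 : (SkewPolynomial.X : AA) * SkewPolynomial.C r
        = SkewPolynomial.C (SkewPolynomial.φ r) * SkewPolynomial.X := by
      have := SkewPolynomial.X_mul_monomial (R := RR) 0 r
      rw [SkewPolynomial.monomial_zero_left] at this
      rw [this, zero_add, SkewPolynomial.C_mul_X_eq_monomial]
    rw [phi_eq] at h1
    simpa [SkewPolynomial.CRingHom_eq_C] using h1
  · intro a
    have key : ∀ f : ℕ →₀ RR, f.sum (fun i r => (SkewPolynomial.CRingHom r : AA) *
        SkewPolynomial.X ^ i) = f.sum (fun i r => SkewPolynomial.monomial i r) := by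
      intro f
      refine Finsupp.sum_congr fun i _ => ?_
      rw [SkewPolynomial.CRingHom_eq_C, SkewPolynomial.C_mul_X_pow_eq_monomial]
    have hcoeff : ∀ (f : ℕ →₀ RR) (n : ℕ),
        SkewPolynomial.coeff (f.sum (fun i r => SkewPolynomial.monomial i r)) n = f n := by
      intro f n
      induction f using Finsupp.induction_linear with
      | zero => simp
      | add f g hf hg =>
        rw [Finsupp.sum_add_index' (fun i => by simp) (fun i r s => by rw [map_add])]
        rw [coeff_add', hf, hg, Finsupp.add_apply]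
      | single i r =>
        rw [Finsupp.sum_single_index (by simp), SkewPolynomial.coeff_monomial,
          Finsupp.single_apply]
    have hext : ∀ u v : AA, (∀ n, u.coeff n = v.coeff n) → u = v := by
      intro u v h
      exact SkewMonoidAlgebra.ext fun n => h (toAdd n)
    have hex : ∃ f : ℕ →₀ RR, f.sum (fun i r => (SkewPolynomial.monomial i r : AA)) = a := by
      induction a using SkewPolynomial.induction with
      | h0 => exact ⟨0, by simp⟩
      | ha n r q _ _ hq =>
        obtain ⟨f, hf⟩ := hq
        refine ⟨Finsupp.single n r + f, ?_⟩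
        rw [Finsupp.sum_add_index' (fun i => by simp) (fun i r s => by rw [map_add]), hf,
          Finsupp.sum_single_index (by simp)]
    obtain ⟨f, hf⟩ := hex
    refine ⟨f, by simp only [key, hf], ?_⟩
    intro g hg
    simp only [key] at hg
    ext1 n
    rw [← hcoeff g n, ← hcoeff f n, hg, hf]

/-- The inclusion `ℚ[x] → R[x; σ]`. -/
noncomputable def jj : Polynomial ℚ →+* AA :=
  Polynomial.eval₂RingHom' ((SkewPolynomial.CRingHom : RR →+* AA).comp (algebraMap ℚ RR))
    SkewPolynomial.X (fun q => by
      rw [RingHom.comp_apply, SkewPolynomial.CRingHom_eq_C, Commute, SemiconjBy,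
        SkewPolynomial.C_mul_X_eq_monomial, ← SkewPolynomial.monomial_zero_left,
        SkewPolynomial.X_mul_monomial, phi_eq, shift_algebraMap])

theorem jj_monomial (n : ℕ) (q : ℚ) :
    jj (Polynomial.monomial n q) = SkewPolynomial.monomial n (algebraMap ℚ RR q) := by
  rw [jj]
  change Polynomial.eval₂ _ _ _ = _
  rw [Polynomial.eval₂_monomial, RingHom.comp_apply, SkewPolynomial.CRingHom_eq_C,
    SkewPolynomial.C_mul_X_pow_eq_monomial]

theorem coeff_jj (p : Polynomial ℚ) (N k : ℕ) :
    (jj p * SkewPolynomial.X ^ N : AA).coeff (k + N) = algebraMap ℚ RR (p.coeff k) := by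
  induction p using Polynomial.induction_on' with
  | add p q hp hq =>
    rw [map_add, add_mul, Polynomial.coeff_add, map_add, ← hp, ← hq, coeff_add']
  | monomial n q =>
    rw [jj_monomial, SkewPolynomial.monomial_mul_X_pow, SkewPolynomial.coeff_monomial,
      Polynomial.coeff_monomial]
    by_cases h : n = k
    · simp [h]
    · simp [h]

/-- Multiplication by large powers of `x` carries elements of `R[x; σ]` to polynomials. -/
theorem eventually_poly (m : AA) : ∃ (p : Polynomial ℚ) (N : ℕ), ∀ n, N ≤ n →
    SkewPolynomial.X ^ n * m = jj p * SkewPolynomial.X ^ n := by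
  induction m using SkewPolynomial.induction with
  | h0 => exact ⟨0, 0, fun n _ => by simp⟩
  | ha k r m' _ _ hm =>
    obtain ⟨p, N, h⟩ := hm
    obtain ⟨q, N', h'⟩ := eventually_const r
    refine ⟨Polynomial.monomial k q + p, max N N', fun n hn => ?_⟩
    rw [mul_add, h n (le_trans (le_max_left _ _) hn), map_add, add_mul, jj_monomial,
      SkewPolynomial.monomial_mul_X_pow, SkewPolynomial.X_pow_mul_monomial]
    have h2 : SkewPolynomial.φ^[n] r = algebraMap ℚ RR q := by
      rw [SkewPolynomial.φ_iterate_apply, smul_eq, h' n (le_trans (le_max_right _ _) hn)]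
    rw [h2]

theorem LSRC_AA : LSRC AA := by
  classical
  intro n hn f hf
  set M : Fin (n + 1) → Fin n → AA := fun i j => f (Pi.single i 1) j with hM
  have hfv : ∀ v j, f v j = ∑ i, v i * M i j := by
    intro v j
    have h1 : v = ∑ i, v i • (Pi.single i (1 : AA) : Fin (n + 1) → AA) := by
      funext k
      simp [Finset.sum_apply, Pi.single_apply]
    conv_lhs => rw [h1]
    rw [map_sum, Finset.sum_apply]
    refine Finset.sum_congr rfl fun i _ => ?_
    rw [map_smul]
    rfl
  choose P K hPK using fun i j => eventually_poly (M i j)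
  set N : ℕ := ∑ i, ∑ j, K i j with hN
  have hNK : ∀ i j, K i j ≤ N := fun i j =>
    le_trans (Finset.single_le_sum (f := fun j => K i j) (fun _ _ => Nat.zero_le _)
      (Finset.mem_univ j))
      (Finset.single_le_sum (f := fun i => ∑ j, K i j) (fun _ _ => Nat.zero_le _)
        (Finset.mem_univ i))
  let g : (Fin (n + 1) → Polynomial ℚ) →ₗ[Polynomial ℚ] (Fin n → Polynomial ℚ) :=
    Matrix.vecMulLinear (Matrix.of P)
  have hg : ¬ Function.Injective g := by
    intro hinj
    have := le_of_fin_injective (Polynomial ℚ) g hinj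
    omega
  obtain ⟨v, hv0, hv⟩ : ∃ v, v ≠ 0 ∧ g v = 0 := by
    by_contra hcon
    push Not at hcon
    exact hg ((injective_iff_map_eq_zero _).2 fun v hv => by
      by_contra h
      exact hcon v h hv)
  have hw : f (fun i => jj (v i) * SkewPolynomial.X ^ N) = 0 := by
    funext j
    rw [hfv]
    have h1 : ∀ i, jj (v i) * SkewPolynomial.X ^ N * M i j
        = jj (v i * P i j) * SkewPolynomial.X ^ N := by
      intro i
      rw [mul_assoc, hPK i j N (hNK i j), ← mul_assoc, ← map_mul]
    simp only [h1]
    rw [← Finset.sum_mul, ← map_sum]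
    have h2 := congrFun hv j
    have h3 : (∑ i, v i * P i j) = 0 := h2
    rw [h3, map_zero, zero_mul]
    rfl
  have hw0 : (fun i => jj (v i) * (SkewPolynomial.X : AA) ^ N) = 0 :=
    hf (by rw [hw, map_zero])
  apply hv0
  funext i
  ext k
  have h4 := congrArg (fun z : AA => z.coeff (k + N)) (congrFun hw0 i)
  simp only [coeff_jj] at h4
  have h5 : algebraMap ℚ RR ((v i).coeff k) = algebraMap ℚ RR 0 := by
    rw [h4, map_zero]; rfl
  exact (algebraMap ℚ RR).injective h5

/-- **Negative answer to Q1**, with `δ = 0`. -/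
theorem result : ∃ (R : Type) (_ : Ring R) (σ : R →+* R) (δ : R →+ R) (A : Type) (_ : Ring A)
    (ι : R →+* A) (x : A), Function.Surjective σ ∧ IsSkewDerivation σ δ ∧
      IsOreExtension σ δ ι x ∧ LSRC A ∧ ¬ LSRC R :=
  ⟨RR, inferInstance, shift.toRingHom, 0, AA, inferInstance, SkewPolynomial.CRingHom,
    SkewPolynomial.X, shift_surjective, fun r s => by simp, isOre, LSRC_AA, not_LSRC_RR⟩

end Pool.Agent.Results.MP_5f6a82_al.SurjectiveFails
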